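import Pool.Agent.H752.AG.Final

/-!
# How many oracles make every spectrum rudimentary?

For every gauge `f`, the set of the `A ⊆ ℕ` for which every spectrum of a first-order sentence
relative to `A` is definable by a bounded formula relative to `A` is a null set for `f` if and
only if for every `ε > 0` there are infinitely many `N` with `f N ≤ N ^ ε`. The same holds for
every set of oracles that contains the `A` for which every spectrum relative to `A` has the form
`{n | t(n) ∈ A}` with a term `t`, and that has only elements `A` for which every spectrum relative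
to `A` is definable by a bounded formula relative to `A`.
-/

namespace Pool.Agent.Results.MP_023469_lc.GaugeThreshold

open Pool.Agent.H752.AG

theorem result (f : ℕ → ℝ) :
    (∀ O : Set (ℕ → Bool),
      (∀ A : ℕ → Bool, (∀ φ : FO, ∃ t : Tm, ∀ a : Fin 1 → ℕ,
        a 0 ∈ spec A φ ↔ A (t.val (asg a)) = true) → A ∈ O) →
      (∀ A ∈ O, ∀ φ : FO, IsD0 A (fun a : Fin 1 → ℕ => a 0 ∈ spec A φ)) →
      (NullN f O ↔ ∀ ε : ℝ, 0 < ε → ∃ᶠ N : ℕ in Filter.atTop, f N ≤ (N : ℝ) ^ ε)) ∧
    (NullN f {A : ℕ → Bool | ∀ φ : FO, IsD0 A (fun a : Fin 1 → ℕ => a 0 ∈ spec A φ)} ↔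
      ∀ ε : ℝ, 0 < ε → ∃ᶠ N : ℕ in Filter.atTop, f N ≤ (N : ℝ) ^ ε) :=
  ⟨fun O h1 h2 => keySpec f O h1 h2, null_spec f⟩

end Pool.Agent.Results.MP_023469_lc.GaugeThreshold
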